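import Mathlib

/-! # MP_8d3ff5_al: two finite groups with the same system of length sets have
exponentially related orders: `|K| < 27 ^ |H|`. -/

namespace Pool.Agent.Results.MP_8d3ff5_al.OrderBound

open scoped Pointwise

/-- The elements of the reduced finitary power monoid of `H`: the finite subsets containing `1`.
The operation is setwise multiplication, the identity is `{1}` (which is `(1 : Set H)`). -/
def Pfin (H : Type) [Group H] : Set (Set H) := {X | X.Finite ∧ (1 : H) ∈ X}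

/-- `A` is irreducible: `A ≠ {1}` and `A` is not a product `B * C` with `B, C ≠ {1}`
(the literal wording of the problem file). -/
def Irr (H : Type) [Group H] (A : Set H) : Prop :=
  A ∈ Pfin H ∧ A ≠ {1} ∧
    ∀ B ∈ Pfin H, ∀ C ∈ Pfin H, A = B * C → B = {1} ∨ C = {1}

/-- `A` is irreducible in the sense of the literature: `A ≠ {1}` and `A` is not a product `B * C`
with `B, C ≠ {1}` that are both different from `A`. It differs from `Irr` only for the
two-element subgroups `{1, x}`, which are irreducible in this sense. -/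
def IrrProper (H : Type) [Group H] (A : Set H) : Prop :=
  A ∈ Pfin H ∧ A ≠ {1} ∧
    ∀ B ∈ Pfin H, ∀ C ∈ Pfin H, A = B * C → B = {1} ∨ C = {1} ∨ B = A ∨ C = A

/-- The length set of `X`, for the notion `I` of irreducible element: all `k` such that `X` is
a product of `k` irreducibles (`k = 0` gives `X = {1}`). -/
def lengthSet {H : Type} [Group H] (I : Set H → Prop) (X : Set H) : Set ℕ :=
  {k | ∃ l : List (Set H), (∀ A ∈ l, I A) ∧ l.prod = X ∧ l.length = k}

/-- The system of length sets. -/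
def system {H : Type} [Group H] (I : Set H → Prop) : Set (Set ℕ) :=
  {L | ∃ X ∈ Pfin H, L = lengthSet I X}

section aux

variable {K : Type} [Group K]

/-- no factorization `X = P * Q` with `P` right invariant under a nontrivial element -/
def Good (X : Set K) : Prop :=
  X.Finite ∧ (1 : K) ∈ X ∧ ∀ P Q : Set K, ∀ e : K, (1 : K) ∈ P → (1 : K) ∈ Q →
    X = P * Q → (∀ p ∈ P, p * e ∈ P) → e = 1

theorem list_pfin (l : List (Set K)) (h : ∀ A ∈ l, A ∈ Pfin K) : l.prod ∈ Pfin K := by
  induction l with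
  | nil =>
    refine ⟨?_, ?_⟩
    · simp
    · simp
  | cons A l ih =>
    have h1 := ih fun B hB => h B (List.mem_cons_of_mem _ hB)
    have h2 := h A List.mem_cons_self
    rw [List.prod_cons]
    exact ⟨h2.1.mul h1.1, ⟨1, h2.2, 1, h1.2, by simp⟩⟩

/-- either the product is large, or a partial product absorbs the next factor -/
theorem split_or (l : List (Set K)) (h : ∀ A ∈ l, A ∈ Pfin K ∧ A ≠ {1}) :
    l.length + 1 ≤ l.prod.ncard ∨
      ∃ l1 A l2, l = l1 ++ A :: l2 ∧ l1.prod * A = l1.prod := by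
  induction l using List.reverseRecOn with
  | nil => left; rw [List.prod_nil, ← Set.singleton_one, Set.ncard_singleton]; simp
  | append_singleton l A ih =>
    have hl : ∀ B ∈ l, B ∈ Pfin K ∧ B ≠ {1} := fun B hB => h B (by simp [hB])
    have hA := h A (by simp)
    rcases ih hl with h1 | ⟨l1, B, l2, h1, h2⟩
    · by_cases h3 : l.prod * A = l.prod
      · right
        exact ⟨l, A, [], by simp, h3⟩
      · left
        have h4 : l.prod ⊆ l.prod * A := fun x hx => ⟨x, hx, 1, hA.1.2, by simp⟩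
        have h5 : (l.prod * A).Finite :=
          (list_pfin l fun B hB => (hl B hB).1).1.mul hA.1.1
        have h6 : l.prod.ncard < (l.prod * A).ncard :=
          Set.ncard_lt_ncard (Set.ssubset_iff_subset_ne.2 ⟨h4, fun h => h3 h.symm⟩) h5
        rw [List.prod_append, List.prod_singleton, List.length_append, List.length_singleton]
        omega
    · right
      exact ⟨l1, B, l2 ++ [A], by simp [h1], h2⟩

theorem exists_ne_one {A : Set K} (hA : A ∈ Pfin K) (h : A ≠ {1}) : ∃ e ∈ A, e ≠ 1 := by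
  by_contra hcon
  push Not at hcon
  apply h
  ext x
  constructor
  · intro hx; exact hcon x hx
  · rintro rfl; exact hA.2

/-- in a good set all lengths are smaller than the number of elements -/
theorem good_lengths {I : Set K → Prop} (hI : ∀ A, I A → A ∈ Pfin K ∧ A ≠ {1}) {X : Set K}
    (hX : Good X) {k : ℕ} (hk : k ∈ lengthSet I X) : k + 1 ≤ X.ncard := by
  obtain ⟨l, hl, hp, rfl⟩ := hk
  rcases split_or l fun A hA => hI A (hl A hA) with h1 | ⟨l1, A, l2, h1, h2⟩
  · rw [hp] at h1; exact h1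
  · exfalso
    have hA := hI A (hl A (by rw [h1]; simp))
    obtain ⟨e, he, he1⟩ := exists_ne_one hA.1 hA.2
    have hP : l1.prod ∈ Pfin K :=
      list_pfin l1 fun B hB => (hI B (hl B (by rw [h1]; simp [hB]))).1
    have hQ : l2.prod ∈ Pfin K :=
      list_pfin l2 fun B hB => (hI B (hl B (by rw [h1]; simp [hB]))).1
    refine he1 (hX.2.2 l1.prod l2.prod e hP.2 hQ.2 ?_ ?_)
    · rw [← hp, h1, List.prod_append, List.prod_cons, ← mul_assoc, h2]
    · intro p hp'
      have : p * e ∈ l1.prod * A := ⟨p, hp', e, he, rfl⟩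
      rwa [h2] at this

/-- a length at least the order of the group forces an infinite length set -/
theorem infinite_of_le [Finite K] {I : Set K → Prop}
    (hI : ∀ A, I A → A ∈ Pfin K ∧ A ≠ {1}) {X : Set K} {k : ℕ} (hk : k ∈ lengthSet I X)
    (hle : Nat.card K ≤ k) : (lengthSet I X).Infinite := by
  obtain ⟨l, hl, hp, rfl⟩ := hk
  rcases split_or l fun A hA => hI A (hl A hA) with h1 | ⟨l1, A, l2, h1, h2⟩
  · exfalso
    have h3 : l.prod.ncard ≤ Nat.card K := by
      have := Set.ncard_le_ncard (Set.subset_univ l.prod) (Set.toFinite _)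
      rwa [Set.ncard_univ] at this
    omega
  · have h3 : ∀ j : ℕ, l1.prod * A ^ j = l1.prod := by
      intro j
      induction j with
      | zero => simp
      | succ j ih => rw [pow_succ, ← mul_assoc, ih, h2]
    have h4 : ∀ j : ℕ, l1.length + j + l2.length ∈ lengthSet I X := by
      intro j
      refine ⟨l1 ++ List.replicate j A ++ l2, ?_, ?_, ?_⟩
      · intro B hB
        simp only [List.mem_append, List.mem_replicate] at hB
        rcases hB with (hB | ⟨_, hB⟩) | hB
        · exact hl B (by rw [h1]; simp [hB])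
        · exact hl B (by rw [h1]; simp [hB])
        · exact hl B (by rw [h1]; simp [hB])
      · rw [List.prod_append, List.prod_append, List.prod_replicate, h3, ← hp, h1,
          List.prod_append, List.prod_cons, ← mul_assoc, h2]
      · simp [add_assoc]
    refine Set.infinite_of_injective_forall_mem (f := fun j : ℕ => l1.length + j + l2.length)
      ?_ h4
    intro i j hij
    simp only at hij
    omega

/-- the eight functions to be avoided -/
def avoid (x y z : K) : Fin 8 → K → K :=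
  ![fun _ => (x * y)⁻¹ * z, fun _ => z⁻¹ * (x * y), fun u => z⁻¹ * (x * (y * u)),
    fun _ => x⁻¹ * z * y⁻¹, fun u => z⁻¹ * (x * u * y), fun u => z⁻¹ * (x * u * (y * u)),
    fun u => (x * u * y)⁻¹ * z, fun u => (x * u * y)⁻¹ * (z * u)]

omit [Group K] in
theorem exists_pair [Finite K] (S : Finset (K → K)) (hS : 2 * S.card < Nat.card K) :
    ∃ a b : K, ∀ f ∈ S, b ≠ f a ∧ a ≠ f b := by
  classical
  have := Fintype.ofFinite K
  rw [Nat.card_eq_fintype_card] at hS
  by_contra hcon
  push Not at hcon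
  have h1 : (Finset.univ : Finset (K × K)) ⊆ S.biUnion fun f =>
      (Finset.univ.image fun a : K => (a, f a)) ∪ (Finset.univ.image fun b : K => (f b, b)) := by
    rintro ⟨a, b⟩ _
    obtain ⟨f, hf, h2⟩ := hcon a b
    rw [Finset.mem_biUnion]
    refine ⟨f, hf, ?_⟩
    rw [Finset.mem_union, Finset.mem_image, Finset.mem_image]
    by_cases h3 : b = f a
    · left; exact ⟨a, Finset.mem_univ _, by rw [← h3]⟩
    · right; exact ⟨b, Finset.mem_univ _, by rw [← h2 h3]⟩
  have h2 := Finset.card_le_card h1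
  rw [Finset.card_univ, Fintype.card_prod] at h2
  have h3 : (S.biUnion fun f =>
      (Finset.univ.image fun a : K => (a, f a)) ∪
        (Finset.univ.image fun b : K => (f b, b))).card ≤ S.card * (2 * Fintype.card K) := by
    refine Finset.card_biUnion_le_card_mul _ _ _ fun f _ => ?_
    refine (Finset.card_union_le _ _).trans ?_
    have h4 : (Finset.univ.image fun a : K => (a, f a)).card ≤ Fintype.card K :=
      Finset.card_image_le
    have h5 : (Finset.univ.image fun b : K => (f b, b)).card ≤ Fintype.card K :=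
      Finset.card_image_le
    omega
  have h6 := h2.trans h3
  have h7 : 0 < Fintype.card K := by omega
  nlinarith

/-- the sixteen inequations -/
def Free (X : Set K) (a b : K) : Prop :=
  ∀ x ∈ X, ∀ y ∈ X, ∀ z ∈ X,
    (x * (y * a) ≠ z ∧ x * (y * b) ≠ z) ∧ (x * y ≠ z * a ∧ x * y ≠ z * b) ∧
    (x * (y * a) ≠ z * b ∧ x * (y * b) ≠ z * a) ∧ (x * a * y ≠ z ∧ x * b * y ≠ z) ∧
    (x * a * y ≠ z * b ∧ x * b * y ≠ z * a) ∧
    (x * a * (y * a) ≠ z * b ∧ x * b * (y * b) ≠ z * a) ∧
    (x * a * (y * b) ≠ z ∧ x * b * (y * a) ≠ z) ∧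
    (x * a * (y * b) ≠ z * a ∧ x * b * (y * a) ≠ z * b)

theorem exists_free [Finite K] {X : Set K} (h : 16 * X.ncard ^ 3 < Nat.card K) :
    ∃ a b : K, Free X a b := by
  classical
  have hX : X.Finite := Set.toFinite X
  obtain ⟨S, rfl⟩ := hX.exists_finset_coe
  rw [Set.ncard_coe_finset] at h
  set T : Finset (K → K) :=
    ((S ×ˢ (S ×ˢ S)) ×ˢ (Finset.univ : Finset (Fin 8))).image
      fun t => avoid t.1.1 t.1.2.1 t.1.2.2 t.2 with hT
  have h1 : T.card ≤ 8 * S.card ^ 3 := by
    refine Finset.card_image_le.trans ?_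
    rw [Finset.card_product, Finset.card_product, Finset.card_product, Finset.card_univ,
      Fintype.card_fin]
    apply le_of_eq
    ring
  obtain ⟨a, b, hab⟩ := exists_pair T (by omega)
  refine ⟨a, b, ?_⟩
  intro x hx y hy z hz
  have key : ∀ i : Fin 8, b ≠ avoid x y z i a ∧ a ≠ avoid x y z i b := by
    intro i
    apply hab
    rw [hT, Finset.mem_image]
    exact ⟨((x, y, z), i), by
      simp only [Finset.mem_product, Finset.mem_univ, and_true]
      exact ⟨hx, hy, hz⟩, rfl⟩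
  have k0 := key 0
  have k1 := key 1
  have k2 := key 2
  have k3 := key 3
  have k4 := key 4
  have k5 := key 5
  have k6 := key 6
  have k7 := key 7
  simp only [avoid, Matrix.cons_val] at k0 k1 k2 k3 k4 k5 k6 k7
  refine ⟨⟨fun h => k0.2 ?_, fun h => k0.1 ?_⟩, ⟨fun h => k1.2 ?_, fun h => k1.1 ?_⟩,
    ⟨fun h => k2.1 ?_, fun h => k2.2 ?_⟩, ⟨fun h => k3.2 ?_, fun h => k3.1 ?_⟩,
    ⟨fun h => k4.1 ?_, fun h => k4.2 ?_⟩, ⟨fun h => k5.1 ?_, fun h => k5.2 ?_⟩,
    ⟨fun h => k6.1 ?_, fun h => k6.2 ?_⟩, ⟨fun h => k7.1 ?_, fun h => k7.2 ?_⟩⟩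
  · rw [← h]; group
  · rw [← h]; group
  · rw [h]; group
  · rw [h]; group
  · rw [h]; group
  · rw [h]; group
  · rw [← h]; group
  · rw [← h]; group
  · rw [h]; group
  · rw [h]; group
  · rw [h]; group
  · rw [h]; group
  · rw [← h]; group
  · rw [← h]; group
  · rw [← h]; group
  · rw [← h]; group

theorem mem_mul_triple {X : Set K} {a b u : K} :
    u ∈ X * ({1, a, b} : Set K) ↔ u ∈ X ∨ (∃ x ∈ X, u = x * a) ∨ ∃ x ∈ X, u = x * b := by
  constructor
  · rintro ⟨x, hx, y, hy, rfl⟩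
    simp only [Set.mem_insert_iff, Set.mem_singleton_iff] at hy
    rcases hy with rfl | rfl | rfl
    · left; simpa using hx
    · right; left; exact ⟨x, hx, rfl⟩
    · right; right; exact ⟨x, hx, rfl⟩
  · rintro (h | ⟨x, hx, rfl⟩ | ⟨x, hx, rfl⟩)
    · exact ⟨u, h, 1, by simp, by simp⟩
    · exact ⟨x, hx, a, by simp, rfl⟩
    · exact ⟨x, hx, b, by simp, rfl⟩

theorem good_step {X : Set K} {a b : K} (hX : Good X) (h : Free X a b) :
    Good (X * ({1, a, b} : Set K)) := by
  obtain ⟨hfin, h1X, hgood⟩ := hX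
  have hfin3 : ({1, a, b} : Set K).Finite := by simp
  refine ⟨hfin.mul hfin3, ⟨1, h1X, 1, by simp, by simp⟩, ?_⟩
  intro P Q e hP1 hQ1 hPQ hPe
  have hPX : ∀ p ∈ P, p ∈ X * ({1, a, b} : Set K) := fun p hp => by
    rw [hPQ]; exact ⟨p, hp, 1, hQ1, by simp⟩
  have hQX : ∀ q ∈ Q, q ∈ X * ({1, a, b} : Set K) := fun q hq => by
    rw [hPQ]; exact ⟨1, hP1, q, hq, by simp⟩
  have hprod : ∀ p ∈ P, ∀ q ∈ Q, p * q ∈ X * ({1, a, b} : Set K) := fun p hp q hq => by
    rw [hPQ]; exact ⟨p, hp, q, hq, rfl⟩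
  have heP : e ∈ P := by simpa using hPe 1 hP1
  -- products of two elements of X
  have hXX : ∀ x ∈ X, ∀ y ∈ X, x * y ∈ X * ({1, a, b} : Set K) → x * y ∈ X := by
    intro x hx y hy hxy
    rcases mem_mul_triple.1 hxy with h2 | ⟨z, hz, h2⟩ | ⟨z, hz, h2⟩
    · exact h2
    · exact absurd h2 (h x hx y hy z hz).2.1.1
    · exact absurd h2 (h x hx y hy z hz).2.1.2
  -- `x a y b` and `x b y a` are not in the set
  have hab : ∀ x ∈ X, ∀ y ∈ X, x * a * (y * b) ∉ X * ({1, a, b} : Set K) := by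
    intro x hx y hy hxy
    rcases mem_mul_triple.1 hxy with h2 | ⟨z, hz, h2⟩ | ⟨z, hz, h2⟩
    · exact (h x hx y hy _ h2).2.2.2.2.2.2.1.1 rfl
    · exact (h x hx y hy z hz).2.2.2.2.2.2.2.1 h2
    · refine (h x hx y hy z hz).2.2.2.1.1 ?_
      have h3 : x * a * y * b = z * b := by rw [← h2]; group
      exact mul_right_cancel h3
  have hba : ∀ x ∈ X, ∀ y ∈ X, x * b * (y * a) ∉ X * ({1, a, b} : Set K) := by
    intro x hx y hy hxy
    rcases mem_mul_triple.1 hxy with h2 | ⟨z, hz, h2⟩ | ⟨z, hz, h2⟩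
    · exact (h x hx y hy _ h2).2.2.2.2.2.2.1.2 rfl
    · refine (h x hx y hy z hz).2.2.2.1.2 ?_
      have h3 : x * b * y * a = z * a := by rw [← h2]; group
      exact mul_right_cancel h3
    · exact (h x hx y hy z hz).2.2.2.2.2.2.2.2 h2
  -- an element of `P` in `X a` excludes elements of `Q` in `X b`, and conversely
  have hQb : (∃ x ∈ X, x * a ∈ P) → ∀ y ∈ X, y * b ∉ Q := by
    rintro ⟨x, hx, hxP⟩ y hy hyQ
    exact hab x hx y hy (hprod _ hxP _ hyQ)
  have hQa : (∃ x ∈ X, x * b ∈ P) → ∀ y ∈ X, y * a ∉ Q := by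
    rintro ⟨x, hx, hxP⟩ y hy hyQ
    exact hba x hx y hy (hprod _ hxP _ hyQ)
  have hAB : (∃ x ∈ X, x * a ∈ P) → ∃ x ∈ X, x * b ∈ P := by
    intro hA
    have h2 : b ∈ P * Q := by
      rw [← hPQ]; exact mem_mul_triple.2 (Or.inr (Or.inr ⟨1, h1X, by simp⟩))
    obtain ⟨p, hp, q, hq, h3⟩ := h2
    simp only at h3
    rcases mem_mul_triple.1 (hPX p hp) with h4 | ⟨x, hx, rfl⟩ | ⟨x, hx, rfl⟩
    · rcases mem_mul_triple.1 (hQX q hq) with h5 | ⟨y, hy, rfl⟩ | ⟨y, hy, rfl⟩
      · exact absurd (by rw [h3, one_mul]) (h p h4 q h5 1 h1X).2.1.2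
      · exact absurd (by rw [h3, one_mul]) (h p h4 y hy 1 h1X).2.2.1.1
      · exact absurd hq (hQb hA y hy)
    · rcases mem_mul_triple.1 (hQX q hq) with h5 | ⟨y, hy, rfl⟩ | ⟨y, hy, rfl⟩
      · exact absurd (by rw [h3, one_mul]) (h x hx q h5 1 h1X).2.2.2.2.1.1
      · exact absurd (by rw [h3, one_mul]) (h x hx y hy 1 h1X).2.2.2.2.2.1.1
      · exact absurd hq (hQb hA y hy)
    · exact ⟨x, hx, hp⟩
  have hBA : (∃ x ∈ X, x * b ∈ P) → ∃ x ∈ X, x * a ∈ P := by
    intro hB
    have h2 : a ∈ P * Q := by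
      rw [← hPQ]; exact mem_mul_triple.2 (Or.inr (Or.inl ⟨1, h1X, by simp⟩))
    obtain ⟨p, hp, q, hq, h3⟩ := h2
    simp only at h3
    rcases mem_mul_triple.1 (hPX p hp) with h4 | ⟨x, hx, rfl⟩ | ⟨x, hx, rfl⟩
    · rcases mem_mul_triple.1 (hQX q hq) with h5 | ⟨y, hy, rfl⟩ | ⟨y, hy, rfl⟩
      · exact absurd (by rw [h3, one_mul]) (h p h4 q h5 1 h1X).2.1.1
      · exact absurd hq (hQa hB y hy)
      · exact absurd (by rw [h3, one_mul]) (h p h4 y hy 1 h1X).2.2.1.2
    · exact ⟨x, hx, hp⟩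
    · rcases mem_mul_triple.1 (hQX q hq) with h5 | ⟨y, hy, rfl⟩ | ⟨y, hy, rfl⟩
      · exact absurd (by rw [h3, one_mul]) (h x hx q h5 1 h1X).2.2.2.2.1.2
      · exact absurd hq (hQa hB y hy)
      · exact absurd (by rw [h3, one_mul]) (h x hx y hy 1 h1X).2.2.2.2.2.1.2
  by_cases hPa : ∃ x ∈ X, x * a ∈ P
  · obtain ⟨yb, hyb, hybP⟩ := hAB hPa
    obtain ⟨ya, hya, hyaP⟩ := id hPa
    -- Q is contained in X
    have hQsub : ∀ q ∈ Q, q ∈ X := by
      intro q hq
      rcases mem_mul_triple.1 (hQX q hq) with h2 | ⟨z, hz, rfl⟩ | ⟨z, hz, rfl⟩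
      · exact h2
      · exact absurd hq (hQa ⟨yb, hyb, hybP⟩ z hz)
      · exact absurd hq (hQb hPa z hz)
    rcases mem_mul_triple.1 (hPX e heP) with he | ⟨x, hx, rfl⟩ | ⟨x, hx, rfl⟩
    · refine hgood (P ∩ X) Q e ⟨hP1, h1X⟩ hQ1 ?_ ?_
      · ext x
        constructor
        · intro hx
          have h2 : x ∈ P * Q := by rw [← hPQ]; exact mem_mul_triple.2 (Or.inl hx)
          obtain ⟨p, hp, q, hq, h3⟩ := h2
          rcases mem_mul_triple.1 (hPX p hp) with h4 | ⟨y, hy, rfl⟩ | ⟨y, hy, rfl⟩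
          · exact ⟨p, ⟨hp, h4⟩, q, hq, h3⟩
          · exact absurd h3 (h y hy q (hQsub q hq) x hx).2.2.2.1.1
          · exact absurd h3 (h y hy q (hQsub q hq) x hx).2.2.2.1.2
        · rintro ⟨p, hp, q, hq, rfl⟩
          exact hXX p hp.2 q (hQsub q hq) (hprod p hp.1 q hq)
      · intro p hp
        exact ⟨hPe p hp.1, hXX p hp.2 e he (hPX _ (hPe p hp.1))⟩
    · exact absurd (hPX _ (hPe _ hybP)) (hba yb hyb x hx)
    · exact absurd (hPX _ (hPe _ hyaP)) (hab ya hya x hx)
  · by_cases hPb : ∃ x ∈ X, x * b ∈ P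
    · exact absurd (hBA hPb) hPa
    · -- P is contained in X
      have hPsub : ∀ p ∈ P, p ∈ X := by
        intro p hp
        rcases mem_mul_triple.1 (hPX p hp) with h2 | ⟨z, hz, rfl⟩ | ⟨z, hz, rfl⟩
        · exact h2
        · exact absurd ⟨z, hz, hp⟩ hPa
        · exact absurd ⟨z, hz, hp⟩ hPb
      refine hgood P (Q ∩ X) e hP1 ⟨hQ1, h1X⟩ ?_ hPe
      ext x
      constructor
      · intro hx
        have h2 : x ∈ P * Q := by rw [← hPQ]; exact mem_mul_triple.2 (Or.inl hx)
        obtain ⟨p, hp, q, hq, h3⟩ := h2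
        rcases mem_mul_triple.1 (hQX q hq) with h4 | ⟨y, hy, rfl⟩ | ⟨y, hy, rfl⟩
        · exact ⟨p, hp, q, ⟨hq, h4⟩, h3⟩
        · exact absurd h3 (h p (hPsub p hp) y hy x hx).1.1
        · exact absurd h3 (h p (hPsub p hp) y hy x hx).1.2
      · rintro ⟨p, hp, q, hq, rfl⟩
        exact hXX p (hPsub p hp) q hq.2 (hprod p hp q hq.1)

theorem irr_triple {X : Set K} {a b : K} (h1X : (1 : K) ∈ X) (h : Free X a b) :
    Irr K ({1, a, b} : Set K) := by
  have h0 := h 1 h1X 1 h1X 1 h1X
  simp only [one_mul, mul_one, ne_eq] at h0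
  obtain ⟨⟨ha, hb⟩, -, ⟨hab, hba⟩, -, -, ⟨haa, hbb⟩, ⟨hab1, hba1⟩, -⟩ := h0
  refine ⟨⟨by simp, by simp⟩, ?_, ?_⟩
  · intro h2
    have : a ∈ ({1, a, b} : Set K) := by simp
    rw [h2] at this
    exact ha this
  · intro B hB C hC h2
    by_contra hcon
    push Not at hcon
    obtain ⟨hB1, hC1⟩ := hcon
    have hBs : ∀ u ∈ B, u = 1 ∨ u = a ∨ u = b := fun u hu => by
      have : u ∈ B * C := ⟨u, hu, 1, hC.2, by simp⟩
      rw [← h2] at this
      simpa using this
    have hCs : ∀ u ∈ C, u = 1 ∨ u = a ∨ u = b := fun u hu => by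
      have : u ∈ B * C := ⟨1, hB.2, u, hu, by simp⟩
      rw [← h2] at this
      simpa using this
    have hm : ∀ u ∈ B, ∀ v ∈ C, u * v = 1 ∨ u * v = a ∨ u * v = b := fun u hu v hv => by
      have : u * v ∈ B * C := ⟨u, hu, v, hv, rfl⟩
      rw [← h2] at this
      simpa using this
    have n1 : ¬ (a ∈ B ∧ b ∈ C) := by
      rintro ⟨h3, h4⟩
      rcases hm a h3 b h4 with h5 | h5 | h5
      · exact hab1 h5
      · exact hb (mul_eq_left.1 h5)
      · exact ha (mul_eq_right.1 h5)
    have n2 : ¬ (b ∈ B ∧ a ∈ C) := by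
      rintro ⟨h3, h4⟩
      rcases hm b h3 a h4 with h5 | h5 | h5
      · exact hba1 h5
      · exact hb (mul_eq_right.1 h5)
      · exact ha (mul_eq_left.1 h5)
    obtain ⟨u, hu, hu1⟩ := exists_ne_one hB hB1
    obtain ⟨v, hv, hv1⟩ := exists_ne_one hC hC1
    rcases hBs u hu with rfl | rfl | rfl
    · exact hu1 rfl
    · rcases hCs v hv with rfl | rfl | rfl
      · exact hv1 rfl
      · -- a in B and C, so b in neither, so the product is {1, a, a^2}
        have hbm : b ∈ B * C := by rw [← h2]; simp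
        obtain ⟨p, hp, q, hq, h3⟩ := hbm
        simp only at h3
        rcases hBs p hp with rfl | rfl | rfl
        · rw [one_mul] at h3; subst h3; exact n1 ⟨hu, hq⟩
        · rcases hCs q hq with rfl | rfl | rfl
          · rw [mul_one] at h3; exact hab h3
          · exact haa h3
          · exact n1 ⟨hp, hq⟩
        · exact n2 ⟨hp, hv⟩
      · exact n1 ⟨hu, hv⟩
    · rcases hCs v hv with rfl | rfl | rfl
      · exact hv1 rfl
      · exact n2 ⟨hu, hv⟩
      · have ham : a ∈ B * C := by rw [← h2]; simp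
        obtain ⟨p, hp, q, hq, h3⟩ := ham
        simp only at h3
        rcases hBs p hp with rfl | rfl | rfl
        · rw [one_mul] at h3; subst h3; exact n2 ⟨hu, hq⟩
        · exact n1 ⟨hp, hv⟩
        · rcases hCs q hq with rfl | rfl | rfl
          · rw [mul_one] at h3; exact hba h3
          · exact n2 ⟨hp, hq⟩
          · exact hbb h3

theorem good_one : Good (1 : Set K) := by
  refine ⟨by simp, by simp, ?_⟩
  intro P Q e hP1 hQ1 hPQ hPe
  have h1 : e ∈ P := by simpa using hPe 1 hP1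
  have h2 : e ∈ P * Q := ⟨e, h1, 1, hQ1, by simp⟩
  rw [← hPQ] at h2
  exact h2

theorem exists_list [Finite K] (k : ℕ) (h : 27 ^ k ≤ Nat.card K) :
    ∃ l : List (Set K), l.length = k ∧ (∀ A ∈ l, Irr K A) ∧ Good l.prod ∧
      l.prod.ncard ≤ 3 ^ k := by
  induction k with
  | zero =>
    refine ⟨[], rfl, by simp, good_one, ?_⟩
    rw [List.prod_nil, ← Set.singleton_one, Set.ncard_singleton]
    simp
  | succ k ih =>
    obtain ⟨l, h1, h2, h3, h4⟩ := ih (le_trans (Nat.pow_le_pow_right (by norm_num) (by omega)) h)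
    have h5 : 16 * l.prod.ncard ^ 3 < Nat.card K := by
      have h6 : l.prod.ncard ^ 3 ≤ (3 ^ k) ^ 3 := Nat.pow_le_pow_left h4 3
      have h7 : (3 ^ k) ^ 3 = 27 ^ k := by
        rw [← pow_mul, mul_comm, pow_mul]; norm_num
      have h8 : 0 < 27 ^ k := by positivity
      rw [pow_succ] at h
      omega
    obtain ⟨a, b, hab⟩ := exists_free h5
    refine ⟨l ++ [{1, a, b}], by simp [h1], ?_, ?_, ?_⟩
    · intro A hA
      rw [List.mem_append, List.mem_singleton] at hA
      rcases hA with hA | rfl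
      · exact h2 A hA
      · exact irr_triple h3.2.1 hab
    · rw [List.prod_append, List.prod_singleton]
      exact good_step h3 hab
    · rw [List.prod_append, List.prod_singleton]
      have h6 : (l.prod * ({1, a, b} : Set K)).ncard ≤
          l.prod.ncard * ({1, a, b} : Set K).ncard := by
        rw [← Nat.card_coe_set_eq, ← Nat.card_coe_set_eq, ← Nat.card_coe_set_eq]
        exact Set.natCard_mul_le
      have h7 : ({1, a, b} : Set K).ncard ≤ 3 := by
        have i1 := Set.ncard_insert_le (1 : K) {a, b}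
        have i2 := Set.ncard_insert_le a {b}
        rw [Set.ncard_singleton] at i2
        omega
      rw [pow_succ]
      exact h6.trans (Nat.mul_le_mul h4 h7)

theorem irr_irrProper {A : Set K} (h : Irr K A) : IrrProper K A :=
  ⟨h.1, h.2.1, fun B hB C hC hBC => by
    rcases h.2.2 B hB C hC hBC with h1 | h1
    · exact Or.inl h1
    · exact Or.inr (Or.inl h1)⟩

end aux

/-- the general form, for two notions of irreducibility -/
theorem bound (H K : Type) [Group H] [Group K] [Finite H] [Finite K]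
    (I : Set H → Prop) (J : Set K → Prop) (hI : ∀ A, I A → A ∈ Pfin H ∧ A ≠ {1})
    (hJ : ∀ A, J A → A ∈ Pfin K ∧ A ≠ {1}) (hJ' : ∀ A, Irr K A → J A)
    (h : system I = system J) : Nat.card K < 27 ^ Nat.card H := by
  by_contra hcon
  push Not at hcon
  obtain ⟨l, h1, h2, h3, -⟩ := exists_list (K := K) (Nat.card H) hcon
  have h4 : lengthSet J l.prod ∈ system J := ⟨l.prod, ⟨h3.1, h3.2.1⟩, rfl⟩
  rw [← h] at h4
  obtain ⟨X, hX, h5⟩ := h4
  have h6 : Nat.card H ∈ lengthSet I X := by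
    rw [← h5]
    exact ⟨l, fun A hA => hJ' A (h2 A hA), rfl, h1⟩
  have h7 := infinite_of_le hI h6 le_rfl
  rw [← h5] at h7
  apply h7
  refine (Set.finite_lt_nat (l.prod.ncard)).subset ?_
  intro k hk
  have := good_lengths hJ h3 hk
  simp only [Set.mem_ofPred_eq]
  omega

/-- If two finite groups have the same system of length sets (for either reading of
`irreducible`), then `|K| < 27 ^ |H|`; so every system belongs to finitely many groups only. -/
theorem result (H K : Type) [Group H] [Group K] [Finite H] [Finite K]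
    (h : system (Irr H) = system (Irr K) ∨ system (IrrProper H) = system (IrrProper K)) :
    Nat.card K < 27 ^ Nat.card H := by
  rcases h with h | h
  · exact bound H K (Irr H) (Irr K) (fun A hA => ⟨hA.1, hA.2.1⟩) (fun A hA => ⟨hA.1, hA.2.1⟩)
      (fun A hA => hA) h
  · exact bound H K (IrrProper H) (IrrProper K) (fun A hA => ⟨hA.1, hA.2.1⟩)
      (fun A hA => ⟨hA.1, hA.2.1⟩) (fun A hA => irr_irrProper hA) h

end Pool.Agent.Results.MP_8d3ff5_al.OrderBound
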